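import Pool.Agent.W192.CY.Stm

/-!
The Dirichlet inverse of the Hecke coefficients and the size of both sequences.
-/

set_option autoImplicit false

namespace W612.CY

open Pool.Agent.W192.CY

/-- A second order recursion with conjugate characteristic roots of modulus `√P`. -/
lemma rec_bound {x P : ℝ} (hP : 0 ≤ P) (hx : |x| ≤ 2 * √P) {s : ℕ → ℝ} (h0 : s 0 = 1)
    (h1 : s 1 = x) (hrec : ∀ j, s (j + 2) = x * s (j + 1) - P * s j) :
    ∀ j : ℕ, |s j| ≤ (j + 1) * √P ^ j := by
  have hx2 : x ^ 2 / 4 ≤ P := by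
    have h2 := mul_self_le_mul_self (abs_nonneg x) hx
    rw [abs_mul_abs_self] at h2
    have h3 := Real.sq_sqrt hP
    nlinarith
  obtain ⟨a, ha⟩ : ∃ a : ℂ, a = ⟨x / 2, √(P - x ^ 2 / 4)⟩ := ⟨_, rfl⟩
  obtain ⟨b, hb⟩ : ∃ b : ℂ, b = ⟨x / 2, -√(P - x ^ 2 / 4)⟩ := ⟨_, rfl⟩
  have hsum : a + b = (x : ℂ) := by
    apply Complex.ext
    · simp [ha, hb]
    · simp [ha, hb]
  have hsq := Real.mul_self_sqrt (sub_nonneg.2 hx2)
  have hprod : a * b = (P : ℂ) := by
    apply Complex.ext
    · simp only [ha, hb, Complex.mul_re, Complex.ofReal_re]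
      nlinarith
    · simp only [ha, hb, Complex.mul_im, Complex.ofReal_im]
      ring
  have hna : ‖a‖ = √P := by
    rw [Complex.norm_def, Complex.normSq_apply, ha]
    congr 1
    simp only
    nlinarith
  have hnb : ‖b‖ = √P := by
    rw [Complex.norm_def, Complex.normSq_apply, hb]
    congr 1
    simp only
    nlinarith
  obtain ⟨S, hS⟩ : ∃ S : ℕ → ℂ, S = fun j => Nat.rec (1 : ℂ) (fun i t => a * t + b ^ (i + 1)) j :=
    ⟨_, rfl⟩
  have hS0 : S 0 = 1 := by subst hS; rfl
  have hS1 : ∀ j, S (j + 1) = a * S j + b ^ (j + 1) := by intro j; subst hS; rfl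
  have hbd : ∀ j : ℕ, ‖S j‖ ≤ (j + 1) * √P ^ j := by
    intro j
    induction j with
    | zero => rw [hS0]; simp
    | succ j ih =>
      rw [hS1]
      refine (norm_add_le _ _).trans ?_
      rw [norm_mul, norm_pow, hna, hnb, pow_succ]
      have := mul_le_mul_of_nonneg_left ih (Real.sqrt_nonneg P)
      push_cast
      nlinarith
  have heq : ∀ j, S j = (s j : ℂ) ∧ S (j + 1) = (s (j + 1) : ℂ) := by
    intro j
    induction j with
    | zero =>
      refine ⟨by rw [hS0, h0]; simp, ?_⟩
      rw [hS1, hS0, h1, ← hsum]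
      ring
    | succ j ih =>
      refine ⟨ih.2, ?_⟩
      rw [hS1 (j + 1), hrec]
      push_cast
      rw [← ih.2, ← ih.1, ← hsum, ← hprod, hS1 j]
      ring
  intro j
  have := hbd j
  rw [(heq j).1, Complex.norm_real, Real.norm_eq_abs] at this
  exact this

lemma sqrt_cast_pow (p j : ℕ) : √((p ^ j : ℕ) : ℝ) = √(p : ℝ) ^ j := by
  induction j with
  | zero => simp
  | succ j ih =>
    rw [pow_succ, Nat.cast_mul, Real.sqrt_mul (Nat.cast_nonneg _), ih, pow_succ]

/-- Bounds for multiplicative functions from bounds at the prime powers. -/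
lemma mult_bound {f : ℕ → ℝ} (h1 : f 1 = 1)
    (hm : ∀ m n : ℕ, Nat.Coprime m n → f (m * n) = f m * f n)
    (hp : ∀ p j : ℕ, p.Prime → |f (p ^ j)| ≤ (j + 1) * √(p : ℝ) ^ j) :
    ∀ n : ℕ, 1 ≤ n → |f n| ≤ n.divisors.card * √(n : ℝ) := by
  intro n
  induction n using Nat.recOnPosPrimePosCoprime with
  | prime_pow p k hpr _ =>
    intro _
    have hcard : (p ^ k).divisors.card = k + 1 := by
      rw [Nat.divisors_prime_pow hpr, Finset.card_map, Finset.card_range]
    rw [hcard, sqrt_cast_pow]
    push_cast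
    exact hp p k hpr
  | zero => intro h; omega
  | one => intro _; rw [h1]; simp
  | coprime a b ha hb hab iha ihb =>
    intro _
    have e1 := iha (by omega)
    have e2 := ihb (by omega)
    rw [hm a b hab, abs_mul, hab.card_divisors_mul, Nat.cast_mul, Nat.cast_mul,
      Real.sqrt_mul (Nat.cast_nonneg _)]
    calc |f a| * |f b| ≤ (a.divisors.card * √(a : ℝ)) * (b.divisors.card * √(b : ℝ)) :=
          mul_le_mul e1 e2 (abs_nonneg _) (by positivity)
      _ = _ := by ring

/-- The values of the inverse at the prime powers. -/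
noncomputable def g (N : ℕ) (c : ℕ → ℝ) (p k : ℕ) : ℝ :=
  if k = 0 then 1 else if k = 1 then -c p else if k = 2 then (if p ∣ N then 0 else (p : ℝ)) else 0

/-- The inverse. -/
noncomputable def mm (N : ℕ) (c : ℕ → ℝ) (n : ℕ) : ℝ :=
  if n = 0 then 0 else n.factorization.prod (g N c)

lemma mm_one (N : ℕ) (c : ℕ → ℝ) : mm N c 1 = 1 := by simp [mm]

lemma mm_pow (N : ℕ) (c : ℕ → ℝ) {p k : ℕ} (hp : p.Prime) : mm N c (p ^ k) = g N c p k := by
  rw [mm, if_neg (pow_ne_zero k hp.ne_zero), hp.factorization_pow,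
    Finsupp.prod_single_index (by simp [g])]

lemma mm_mul (N : ℕ) (c : ℕ → ℝ) {a b : ℕ} (h : Nat.Coprime a b) :
    mm N c (a * b) = mm N c a * mm N c b := by
  by_cases ha : a = 0
  · subst ha
    have hb : b = 1 := by simpa using h
    subst hb
    simp [mm]
  by_cases hb : b = 0
  · subst hb
    have ha : a = 1 := by simpa using h
    subst ha
    simp [mm]
  rw [mm, mm, mm, if_neg (mul_ne_zero ha hb), if_neg ha, if_neg hb, Nat.factorization_mul ha hb]
  apply Finsupp.prod_add_index_of_disjoint
  rw [Nat.support_factorization, Nat.support_factorization]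
  exact h.disjoint_primeFactors

theorem t_coef : S_COEF := by
  intro N c hc
  have hcb : ∀ p j : ℕ, p.Prime → |c (p ^ j)| ≤ (j + 1) * √(p : ℝ) ^ j := by
    intro p j hp
    have hp1 : (1 : ℝ) ≤ √(p : ℝ) := by
      rw [Real.one_le_sqrt]
      exact_mod_cast hp.one_lt.le
    by_cases hN : p ∣ N
    · have h1 : ∀ i, c (p ^ i) = c p ^ i := by
        intro i
        induction i with
        | zero => rw [pow_zero, pow_zero, hc.one]
        | succ i ih =>
          rcases i with _ | i
          · rw [zero_add, pow_one, pow_one]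
          · rw [hc.pow p i hp, if_pos hN, sub_zero, ih, ← pow_succ']
      rw [h1, abs_pow]
      have h2 : |c p| ^ j ≤ 1 := pow_le_one₀ (abs_nonneg _) (hc.bad p hp hN)
      have h3 : (1 : ℝ) ≤ √(p : ℝ) ^ j := one_le_pow₀ hp1
      have h4 : (0 : ℝ) ≤ j := Nat.cast_nonneg j
      nlinarith
    · exact rec_bound (x := c p) (P := p) (s := fun i => c (p ^ i)) (Nat.cast_nonneg p)
        (hc.good p hp hN) (by simp [hc.one]) (by simp) (fun i => by
          have := hc.pow p i hp
          rw [if_neg hN] at this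
          exact this) j
  have hmb : ∀ p j : ℕ, p.Prime → |mm N c (p ^ j)| ≤ (j + 1) * √(p : ℝ) ^ j := by
    intro p j hp
    have hp1 : (1 : ℝ) ≤ √(p : ℝ) := by
      rw [Real.one_le_sqrt]
      exact_mod_cast hp.one_lt.le
    rw [mm_pow N c hp]
    rcases j with _ | _ | _ | j
    · simp [g]
    · simp only [g, zero_add, one_ne_zero, if_false, if_true, abs_neg, pow_one, Nat.cast_one]
      have := hcb p 1 hp
      rw [pow_one, pow_one, Nat.cast_one] at this
      exact this
    · simp only [g]
      have h2 := Real.sq_sqrt (Nat.cast_nonneg (α := ℝ) p)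
      have h3 : (0 : ℝ) ≤ p := Nat.cast_nonneg p
      norm_num
      split_ifs
      · simp
      · rw [abs_of_nonneg h3]
        linarith
    · simp only [g]
      rw [if_neg (by omega), if_neg (by omega), if_neg (by omega), abs_zero]
      positivity
  refine ⟨mm N c, hc.zero, mm_one N c, ?_, mult_bound hc.one hc.mul hcb,
    mult_bound (mm_one N c) (fun a b h => mm_mul N c h) hmb⟩
  let C : ArithmeticFunction ℝ := ⟨c, hc.zero⟩
  let M : ArithmeticFunction ℝ := ⟨mm N c, by simp [mm]⟩
  have hC : C.IsMultiplicative := ⟨hc.one, fun {m n} h => hc.mul m n h⟩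
  have hM : M.IsMultiplicative := ⟨mm_one N c, fun {m n} h => mm_mul N c h⟩
  have hMC : M * C = 1 := by
    rw [ArithmeticFunction.IsMultiplicative.eq_iff_eq_on_prime_powers _ (hM.mul hC) _
      ArithmeticFunction.isMultiplicative_one]
    intro p i hp
    rw [ArithmeticFunction.mul_apply, Nat.sum_divisorsAntidiagonal (fun x y => M x * C y),
      Nat.sum_divisors_prime_pow hp]
    have hterm : ∀ x ∈ Finset.range (i + 1), M (p ^ x) * C (p ^ i / p ^ x)
        = g N c p x * c (p ^ (i - x)) := by
      intro x hx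
      rw [Finset.mem_range] at hx
      rw [Nat.pow_div (by omega) hp.pos]
      show mm N c (p ^ x) * c (p ^ (i - x)) = _
      rw [mm_pow N c hp]
    rw [Finset.sum_congr rfl hterm]
    rcases i with _ | _ | i
    · simp [g, hc.one]
    · rw [Finset.sum_range_succ, Finset.sum_range_one]
      have : (p : ℕ) ^ (0 + 1) ≠ 1 := by
        rw [zero_add, pow_one]; exact hp.one_lt.ne'
      rw [ArithmeticFunction.one_apply_ne this]
      simp [g, hc.one]
    · rw [Finset.sum_range_succ', Finset.sum_range_succ', Finset.sum_range_succ']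
      have hz : ∑ k ∈ Finset.range i, g N c p (k + 1 + 1 + 1) * c (p ^ (i + 1 + 1 - (k + 1 + 1 + 1)))
          = 0 := by
        apply Finset.sum_eq_zero
        intro k _
        simp [g]
      have hne : p ^ (i + 1 + 1) ≠ 1 := by
        intro h
        have := (Nat.pow_eq_one.1 h).resolve_right (by omega)
        exact hp.one_lt.ne' this
      rw [hz, ArithmeticFunction.one_apply_ne hne]
      have h3 := hc.pow p i hp
      simp only [g, zero_add, one_ne_zero, if_false, if_true, Nat.sub_zero,
        show i + 1 + 1 - (1 + 1) = i from by omega, show i + 1 + 1 - 1 = i + 1 from by omega]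
      norm_num
      rw [show i + 1 + 1 = i + 2 from rfl, h3]
      split_ifs <;> ring
  intro k hk
  have h := congrArg (fun F : ArithmeticFunction ℝ => F k) hMC
  simp only [ArithmeticFunction.mul_apply, ArithmeticFunction.one_apply] at h
  exact h

end W612.CY
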